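import Pool.Agent.W540.BE.EC

/-!
# Elliptic curves over number fields: all Artin twists on the edge of absolute convergence

`F` is an arbitrary number field and `E` an elliptic curve over `F`, given by an integral Weierstrass
equation `W` with discriminant `≠ 0` (every elliptic curve over `F` has one).  For a representation `ρ`
of `Gal(F̄/F)` on `ℂⁿ` with open kernel, `L(E ⊗ ρ, s)` is the Euler product over the primes `v` of `F`
whose factor is, for all but finitely many `v`,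
`det(1 - a_v q_v^{-s} ρ(Frob_v⁻¹) + q_v^{1 - 2s} ρ(Frob_v⁻¹)²)⁻¹`, `a_v = q_v + 1 - #E(k_v)`.
For the trivial `ρ` it is `L(E/F, s)`; for `ρ` induced from a character `χ` of `Gal(F̄/F')`, `F' ⊇ F`
finite, it is `L(E/F', χ, s)`.

The theorem bounds zeros and poles on the edge `Re s = 3/2` of the half-plane of absolute
convergence, for all Artin twists of `E` together.
-/

set_option autoImplicit false

namespace Pool.Agent.Results.MP_bf61d2_nt.ArtinTwists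

open Complex Filter Topology NumberField IsDedekindDomain Polynomial

/-- The number of solutions of the affine Weierstrass equation of `V` with coordinates in `R`. -/
noncomputable def affineCount {R : Type} [CommRing R] (V : WeierstrassCurve R) : ℕ :=
  Nat.card {P : R × R // P.2 ^ 2 + V.a₁ * P.1 * P.2 + V.a₃ * P.2 =
    P.1 ^ 3 + V.a₂ * P.1 ^ 2 + V.a₄ * P.1 + V.a₆}

/-- `a_v = q_v + 1 - #E(k_v)`, `k_v` the residue field of `v` and `q_v` its number of elements; there is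
one point at infinity. -/
noncomputable def frobTrace {F : Type} [Field F] [NumberField F] (W : WeierstrassCurve (𝓞 F))
    (v : HeightOneSpectrum (𝓞 F)) : ℤ :=
  (Ideal.absNorm v.asIdeal : ℤ) + 1 - ((affineCount (W.map (Ideal.Quotient.mk v.asIdeal)) : ℤ) + 1)

/-- `σ` is a Frobenius element at the prime `v` of `F`: there is a maximal ideal `Q` above `v` of the
ring of all algebraic integers with `σ x ≡ x ^ q_v` modulo `Q` for all `x`. -/
def IsFrobenius {F : Type} [Field F] [NumberField F] (v : HeightOneSpectrum (𝓞 F))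
    (σ : Gal(AlgebraicClosure F/F)) : Prop :=
  ∃ Q : Ideal (𝓞 (AlgebraicClosure F)), Q.IsMaximal ∧
    Q.comap (algebraMap (𝓞 F) (𝓞 (AlgebraicClosure F))) = v.asIdeal ∧
    ∀ x : 𝓞 (AlgebraicClosure F), σ • x - x ^ Ideal.absNorm v.asIdeal ∈ Q

/-- `ρ` is an Artin representation of `F`: it is trivial on an open subgroup of `Gal(F̄/F)`. -/
def IsArtin {F : Type} [Field F] [NumberField F] {n : ℕ}
    (ρ : Representation ℂ Gal(AlgebraicClosure F/F) (Fin n → ℂ)) : Prop :=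
  ∃ U : Subgroup Gal(AlgebraicClosure F/F), IsOpen (U : Set Gal(AlgebraicClosure F/F)) ∧
    ∀ u ∈ U, ρ u = 1

/-- The polynomials `B v` are the Euler factors of `E ⊗ ρ` at all but finitely many primes `v`:
`B_v(z) = det(1 - a_v z ρ(Frob_v⁻¹) + q_v z² ρ(Frob_v⁻¹)²)`. -/
def IsEulerFactor {F : Type} [Field F] [NumberField F] (W : WeierstrassCurve (𝓞 F)) {n : ℕ}
    (ρ : Representation ℂ Gal(AlgebraicClosure F/F) (Fin n → ℂ))
    (B : HeightOneSpectrum (𝓞 F) → ℂ[X]) : Prop :=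
  ∀ᶠ v in cofinite, ∀ σ : Gal(AlgebraicClosure F/F), IsFrobenius v σ → ∀ z : ℂ,
    (B v).eval z = LinearMap.det (1 - ((frobTrace W v : ℂ) * z) • ρ σ⁻¹ +
      ((Ideal.absNorm v.asIdeal : ℂ) * z ^ 2) • (ρ σ⁻¹) ^ 2)

/-- The Euler product `∏_v B_v(q_v^{-s})⁻¹`. -/
noncomputable def eulerProduct {F : Type} [Field F] [NumberField F]
    (B : HeightOneSpectrum (𝓞 F) → ℂ[X]) (s : ℂ) : ℂ :=
  ∏' v : HeightOneSpectrum (𝓞 F), ((B v).eval ((Ideal.absNorm v.asIdeal : ℂ) ^ (-s)))⁻¹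

open Classical in
/-- `⟨k, l⟩ = dim Hom(ρ_k, ρ_l)` if `τ_k = τ_l`, and `0` otherwise. -/
noncomputable def homDim {F : Type} [Field F] {κ : Type} {n : κ → ℕ}
    (ρ : ∀ k, Representation ℂ Gal(AlgebraicClosure F/F) (Fin (n k) → ℂ)) (τ : κ → ℝ)
    (k l : κ) : ℝ :=
  if τ k = τ l then (Module.finrank ℂ ((ρ k).IntertwiningMap (ρ l)) : ℝ) else 0

/-- `log |L(E ⊗ ρ, 3/2 + iτ + ε)| / log (1/ε)`, which tends to the order of the pole at `3/2 + iτ` if
there is a meromorphic continuation to a neighbourhood. -/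
noncomputable def size {F : Type} [Field F] [NumberField F]
    (B : HeightOneSpectrum (𝓞 F) → ℂ[X]) (τ ε : ℝ) : ℝ :=
  Real.log ‖eulerProduct B (3 / 2 + τ * I + ε)‖ / Real.log (1 / ε)

/-- **All Artin twists of an elliptic curve over a number field on the edge `Re s = 3/2`.**

Let `K` be a finite set of indices `k`, each with an Artin representation `ρ_k` of `F` and a height
`τ_k ∈ ℝ`; `s_k = 3/2 + iτ_k`, `L_k` the Euler product of `E ⊗ ρ_k` with arbitrary polynomials, not zero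
at `q_v^{-s_k}`, as factors at finitely many primes.  Write `x_k(ε) = log |L_k(s_k + ε)| / log(1/ε)`.

1. `L_k(s_k + ε) ≠ 0` for small `ε > 0`.
2. (Nothing is assumed about continuation.)  For all `C` and `η > 0` and all sufficiently small
`ε > 0`: `(∑_k c_k x_k(ε))² ≤ 4 ∑_{k,l} c_k c_l ⟨k, l⟩ + η` for all real `c_k`, `|c_k| ≤ C`.
3. If `⟨k, l⟩ = 0` for `k ≠ l` then `∑_k x_k(ε)² / dim End(ρ_k) ≤ 4 + η` for small `ε > 0`.
4. If the `L_k` have meromorphic continuations to neighbourhoods of the points `s_k`, then these have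
finite orders `m_k` at `s_k`, and `(∑_k c_k m_k)² ≤ 4 ∑_{k,l} c_k c_l ⟨k, l⟩` for all real `c_k`;
`∑_k m_k² / dim End(ρ_k) ≤ 4` if `⟨k, l⟩ = 0` for `k ≠ l`; and if the `ρ_k` are irreducible and pairwise
inequivalent for equal heights then `∑_k m_k² ≤ 4`, so that for at most four of the `k` there is a zero
or a pole. -/
theorem result (F : Type) [Field F] [NumberField F] (W : WeierstrassCurve (𝓞 F)) (hΔ : W.Δ ≠ 0)
    (κ : Type) (K : Finset κ) (n : κ → ℕ)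
    (ρ : ∀ k, Representation ℂ Gal(AlgebraicClosure F/F) (Fin (n k) → ℂ))
    (hρ : ∀ k ∈ K, IsArtin (ρ k)) (τ : κ → ℝ)
    (B : κ → HeightOneSpectrum (𝓞 F) → ℂ[X]) (hB : ∀ k ∈ K, IsEulerFactor W (ρ k) (B k))
    (hB0 : ∀ k ∈ K, ∀ v,
      (B k v).eval ((Ideal.absNorm v.asIdeal : ℂ) ^ (-(3 / 2 + τ k * I : ℂ))) ≠ 0) :
    (∀ k ∈ K, ∀ᶠ ε : ℝ in 𝓝[>] 0, eulerProduct (B k) (3 / 2 + τ k * I + ε) ≠ 0) ∧
    (∀ C η : ℝ, 0 < η → ∀ᶠ ε : ℝ in 𝓝[>] 0, ∀ c : κ → ℝ, (∀ k ∈ K, |c k| ≤ C) →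
      (∑ k ∈ K, c k * size (B k) (τ k) ε) ^ 2 ≤
        4 * (∑ k ∈ K, ∑ l ∈ K, c k * c l * homDim ρ τ k l) + η) ∧
    ((∀ k ∈ K, ∀ l ∈ K, k ≠ l → homDim ρ τ k l = 0) → ∀ η : ℝ, 0 < η →
      ∀ᶠ ε : ℝ in 𝓝[>] 0, ∑ k ∈ K, size (B k) (τ k) ε ^ 2 / homDim ρ τ k k ≤ 4 + η) ∧
    (∀ Λ : κ → ℂ → ℂ, (∀ k ∈ K, MeromorphicAt (Λ k) (3 / 2 + τ k * I) ∧
      ∀ᶠ s in 𝓝 (3 / 2 + τ k * I : ℂ), 3 / 2 < s.re → Λ k s = eulerProduct (B k) s) →
      ∃ m : κ → ℤ, (∀ k ∈ K, meromorphicOrderAt (Λ k) (3 / 2 + τ k * I) = m k) ∧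
        (∀ c : κ → ℝ, (∑ k ∈ K, c k * m k) ^ 2 ≤
          4 * ∑ k ∈ K, ∑ l ∈ K, c k * c l * homDim ρ τ k l) ∧
        ((∀ k ∈ K, ∀ l ∈ K, k ≠ l → homDim ρ τ k l = 0) →
          ∑ k ∈ K, (m k : ℝ) ^ 2 / homDim ρ τ k k ≤ 4) ∧
        ((∀ k ∈ K, (ρ k).IsIrreducible) →
          (∀ k ∈ K, ∀ l ∈ K, k ≠ l → τ k = τ l → IsEmpty ((ρ k).Equiv (ρ l))) →
          ∑ k ∈ K, (m k) ^ 2 ≤ 4 ∧ (K.filter fun k => m k ≠ 0).card ≤ 4)) := by
  obtain ⟨α, h1, h2⟩ := W540.BE.ec_main F W hΔ K n ρ B hB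
  have hs : ∀ x : ℝ, (((1 / 2 : ℝ) : ℂ) + 1 + x * I) = 3 / 2 + x * I := by
    intro x
    push_cast
    ring
  have h := W540.BE.core3 F 2 (1 / 2) α h1 K n ρ hρ τ B h2
    (by
      intro k hk v
      rw [hs]
      exact hB0 k hk v)
    (fun k => eulerProduct (B k)) (fun k _ s _ => rfl)
  simp only [hs] at h
  have hb : ((2 : ℕ) : ℝ) ^ 2 = 4 := by norm_num
  have hbz : ((2 : ℕ) : ℤ) ^ 2 = 4 := by norm_num
  have hbn : (2 : ℕ) ^ 2 = 4 := by norm_num
  have hr : (1 / 2 : ℝ) + 1 = 3 / 2 := by norm_num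
  rw [hb, hbz, hbn, hr] at h
  exact h

end Pool.Agent.Results.MP_bf61d2_nt.ArtinTwists
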