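import Pool.Agent.W353.L1.EC

/-!
# Elliptic curves over number fields: a sup-norm bound for Artin twists on the edge

`F` is an arbitrary number field and `E` an elliptic curve over `F`, given by an integral Weierstrass
equation `W` with discriminant `≠ 0`.  For a representation `ρ` of `G = Gal(F̄/F)` on `ℂⁿ` that is
trivial on an open normal subgroup `U`, `L(E ⊗ ρ, s)` is the Euler product over the primes `v` of `F`
whose factor is, for all but finitely many `v`,
`det(1 - a_v q_v^{-s} ρ(Frob_v⁻¹) + q_v^{1 - 2s} ρ(Frob_v⁻¹)²)⁻¹`, `a_v = q_v + 1 - #E(k_v)`.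
For the trivial `ρ` it is `L(E/F, s)`.

`a_v / √q_v` is a real number of absolute value at most `2`.  Combined with Chebotarev's theorem and
the equidistribution of `q_v^{-iτ}` on the unit circle inside every Frobenius class, this bounds linear
combinations of the orders of the `L(E ⊗ ρ, s)` on the line `Re s = 3/2` by an `L¹`-norm of characters
(not an `L²`-norm), and gives exact results off the real point.
-/

set_option autoImplicit false

namespace Pool.Agent.Results.MP_bf61d2_nt.NonabelianTwists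

open Complex Filter Topology NumberField IsDedekindDomain Polynomial

/-- The number of solutions of the affine Weierstrass equation of `V` with coordinates in `R`. -/
noncomputable def affineCount {R : Type} [CommRing R] (V : WeierstrassCurve R) : ℕ :=
  Nat.card {P : R × R // P.2 ^ 2 + V.a₁ * P.1 * P.2 + V.a₃ * P.2 =
    P.1 ^ 3 + V.a₂ * P.1 ^ 2 + V.a₄ * P.1 + V.a₆}

/-- `a_v = q_v + 1 - #E(k_v)`, `k_v` the residue field of `v` and `q_v` its number of elements; there is
one point at infinity. -/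
noncomputable def frobTrace {F : Type} [Field F] [NumberField F] (W : WeierstrassCurve (𝓞 F))
    (v : HeightOneSpectrum (𝓞 F)) : ℤ :=
  (Ideal.absNorm v.asIdeal : ℤ) + 1 - ((affineCount (W.map (Ideal.Quotient.mk v.asIdeal)) : ℤ) + 1)

/-- `σ` is a Frobenius element at the prime `v` of `F`: there is a maximal ideal `Q` above `v` of the
ring of all algebraic integers with `σ x ≡ x ^ q_v` modulo `Q` for all `x`. -/
def IsFrobenius {F : Type} [Field F] [NumberField F] (v : HeightOneSpectrum (𝓞 F))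
    (σ : Gal(AlgebraicClosure F/F)) : Prop :=
  ∃ Q : Ideal (𝓞 (AlgebraicClosure F)), Q.IsMaximal ∧
    Q.comap (algebraMap (𝓞 F) (𝓞 (AlgebraicClosure F))) = v.asIdeal ∧
    ∀ x : 𝓞 (AlgebraicClosure F), σ • x - x ^ Ideal.absNorm v.asIdeal ∈ Q

/-- The polynomials `B v` are the Euler factors of `E ⊗ ρ` at all but finitely many primes `v`:
`B_v(z) = det(1 - a_v z ρ(Frob_v⁻¹) + q_v z² ρ(Frob_v⁻¹)²)`. -/
def IsEulerFactor {F : Type} [Field F] [NumberField F] (W : WeierstrassCurve (𝓞 F)) {n : ℕ}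
    (ρ : Representation ℂ Gal(AlgebraicClosure F/F) (Fin n → ℂ))
    (B : HeightOneSpectrum (𝓞 F) → ℂ[X]) : Prop :=
  ∀ᶠ v in cofinite, ∀ σ : Gal(AlgebraicClosure F/F), IsFrobenius v σ → ∀ z : ℂ,
    (B v).eval z = LinearMap.det (1 - ((frobTrace W v : ℂ) * z) • ρ σ⁻¹ +
      ((Ideal.absNorm v.asIdeal : ℂ) * z ^ 2) • (ρ σ⁻¹) ^ 2)

/-- The Euler product `∏_v B_v(q_v^{-s})⁻¹`. -/
noncomputable def eulerProduct {F : Type} [Field F] [NumberField F]
    (B : HeightOneSpectrum (𝓞 F) → ℂ[X]) (s : ℂ) : ℂ :=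
  ∏' v : HeightOneSpectrum (𝓞 F), ((B v).eval ((Ideal.absNorm v.asIdeal : ℂ) ^ (-s)))⁻¹

/-- `log |L(E ⊗ ρ, 3/2 + iτ + ε)| / log (1/ε)`, which tends to the order of the pole at `3/2 + iτ` if
there is a meromorphic continuation to a neighbourhood. -/
noncomputable def size {F : Type} [Field F] [NumberField F]
    (B : HeightOneSpectrum (𝓞 F) → ℂ[X]) (τ ε : ℝ) : ℝ :=
  Real.log ‖eulerProduct B (3 / 2 + τ * I + ε)‖ / Real.log (1 / ε)

open Classical in
/-- For a function `f` on the group `G` and a normal subgroup `U` of finite index (`f` constant on the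
cosets of `U`): the mean value over the finite group `G / U` of `|Re f|` if `τ = 0`, and `2/π` times
the mean value of `|f|` if `τ ≠ 0`. -/
noncomputable def meanNorm {G : Type} [Group G] (U : Subgroup G) (τ : ℝ) (f : G → ℂ) : ℝ :=
  (if τ = 0 then ∑ᶠ q : G ⧸ U, |(f q.out).re| else 2 / Real.pi * ∑ᶠ q : G ⧸ U, ‖f q.out‖) /
    Nat.card (G ⧸ U)

open Classical in
/-- **Artin twists of an elliptic curve over a number field: sup-norm bounds on `Re s = 3/2`.**

Let `ρ_k` (`k` in a finite set) be representations of `G = Gal(F̄/F)` that are trivial on the open normal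
subgroup `U`, `χ_k` their characters, `τ_k ∈ ℝ`; `L_k` the Euler product of `E ⊗ ρ_k` with arbitrary
polynomials, not zero at `q_v^{-s_k}`, `s_k = 3/2 + iτ_k`, as factors at finitely many primes; and
`x_k(ε) = log |L_k(s_k + ε)| / log(1/ε)`.

1. `L_k(s_k + ε) ≠ 0` for small `ε > 0`.
2. (Nothing is assumed about continuation.)  If `c_k = 0` unless `τ_k = t`, then for every `η > 0` and
all small `ε > 0`: `|∑_k c_k x_k(ε)| ≤ 2 ‖∑_k c_k χ_k‖ + η`, where `‖f‖` is the mean value over `G / U` of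
`|Re f|` if `t = 0` and `2/π` times the mean value of `|f|` if `t ≠ 0`.
3. If the `L_k` have meromorphic continuations to neighbourhoods of the `s_k`, then these have finite
orders `m_k` at `s_k`, and
* `|∑_k c_k m_k| ≤ 2 ‖∑_k c_k χ_k‖` if `c_k = 0` unless `τ_k = t`;
* for a set of `k` with `τ_k > 0` and `ρ_k` irreducible, pairwise inequivalent for equal heights:
`∑_k |m_k| ≤ 1`, so that at most one of these twists has a zero or a pole, and it is simple;
* for a set of `k` with `τ_k = t`, `ρ_k` irreducible and pairwise inequivalent, and `∑ n_k² = [G : U]`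
(all irreducible representations of `G / U`), the virtual character `θ = ∑ m_k χ_k` satisfies
`|θ(g)| ≤ 2` if `t = 0` and `|θ(g)| ≤ 4/π` if `t ≠ 0`, for all `g ∈ G`; and if `t ≠ 0` then `m_k = 0` for
all `ρ_k` of dimension at least two: the non-abelian twists have no zero and no pole there. -/
theorem result (F : Type) [Field F] [NumberField F] (W : WeierstrassCurve (𝓞 F)) (hΔ : W.Δ ≠ 0)
    (U : Subgroup Gal(AlgebraicClosure F/F)) [U.Normal]
    (hU : IsOpen (U : Set Gal(AlgebraicClosure F/F)))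
    (κ : Type) [Fintype κ] (n : κ → ℕ)
    (ρ : ∀ k, Representation ℂ Gal(AlgebraicClosure F/F) (Fin (n k) → ℂ))
    (hρ : ∀ k, ∀ u ∈ U, ρ k u = 1) (τ : κ → ℝ)
    (B : κ → HeightOneSpectrum (𝓞 F) → ℂ[X]) (hB : ∀ k, IsEulerFactor W (ρ k) (B k))
    (hB0 : ∀ k, ∀ v,
      (B k v).eval ((Ideal.absNorm v.asIdeal : ℂ) ^ (-(3 / 2 + τ k * I : ℂ))) ≠ 0) :
    (∀ k, ∀ᶠ ε : ℝ in 𝓝[>] 0, eulerProduct (B k) (3 / 2 + τ k * I + ε) ≠ 0) ∧
    (∀ (t : ℝ) (c : κ → ℝ), (∀ k, c k ≠ 0 → τ k = t) → ∀ η : ℝ, 0 < η → ∀ᶠ ε : ℝ in 𝓝[>] 0,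
      |∑ k, c k * size (B k) (τ k) ε| ≤
        2 * meanNorm U t (fun g => ∑ k, (c k : ℂ) * (ρ k).character g) + η) ∧
    (∀ Λ : κ → ℂ → ℂ, (∀ k, MeromorphicAt (Λ k) (3 / 2 + τ k * I) ∧
      ∀ᶠ s in 𝓝 (3 / 2 + τ k * I : ℂ), 3 / 2 < s.re → Λ k s = eulerProduct (B k) s) →
      ∃ m : κ → ℤ, (∀ k, meromorphicOrderAt (Λ k) (3 / 2 + τ k * I) = m k) ∧
        (∀ (t : ℝ) (c : κ → ℝ), (∀ k, c k ≠ 0 → τ k = t) →
          |∑ k, c k * m k| ≤
            2 * meanNorm U t (fun g => ∑ k, (c k : ℂ) * (ρ k).character g)) ∧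
        (∀ K : Finset κ, (∀ k ∈ K, (ρ k).IsIrreducible ∧ 0 < τ k) →
          (∀ k ∈ K, ∀ l ∈ K, k ≠ l → τ k = τ l → IsEmpty ((ρ k).Equiv (ρ l))) →
          ∑ k ∈ K, |m k| ≤ 1) ∧
        (∀ (t : ℝ) (K : Finset κ), (∀ k ∈ K, (ρ k).IsIrreducible ∧ τ k = t) →
          (∀ k ∈ K, ∀ l ∈ K, k ≠ l → IsEmpty ((ρ k).Equiv (ρ l))) →
          ∑ k ∈ K, n k ^ 2 = Nat.card (Gal(AlgebraicClosure F/F) ⧸ U) →
          (∀ g, ‖∑ k ∈ K, (m k : ℂ) * (ρ k).character g‖ ≤ if t = 0 then 2 else 4 / Real.pi) ∧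
          (t ≠ 0 → ∀ k ∈ K, 2 ≤ n k → m k = 0))) := by
  have hfin : Finite (Gal(AlgebraicClosure F/F) ⧸ U) := Subgroup.quotient_finite_of_isOpen U hU
  let _ : Fintype (Gal(AlgebraicClosure F/F) ⧸ U) := Fintype.ofFinite _
  obtain ⟨α, h1, h2, h3⟩ := W353.L1.ec_main F W hΔ n ρ B hB
  have hs : ∀ x : ℝ, (((1 / 2 : ℝ) : ℂ) + 1 + x * I) = 3 / 2 + x * I := by
    intro x
    push_cast
    ring
  have hr : (1 / 2 : ℝ) + 1 = 3 / 2 := by norm_num
  have hB0' : ∀ k, ∀ v, (B k v).eval (((W540.BE.nm F v : ℕ) : ℂ) ^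
      (-(((1 / 2 : ℝ) : ℂ) + 1 + τ k * I : ℂ))) ≠ 0 := by
    intro k v
    rw [hs]
    exact hB0 k v
  have hL : ∀ k, ∀ s : ℂ, (1 / 2 : ℝ) + 1 < s.re → eulerProduct (B k) s =
      ∏' v, ((B k v).eval (((W540.BE.nm F v : ℕ) : ℂ) ^ (-s)))⁻¹ := fun k s _ => rfl
  have hx : ∀ k ε, W353.L1.xs (1 / 2) τ (fun k => eulerProduct (B k)) k ε =
      size (B k) (τ k) ε := by
    intro k ε
    unfold W353.L1.xs size
    rw [hs]
  have hnrm : ∀ (t : ℝ) (c : κ → ℝ),
      W353.L1.nrm U t (W353.L1.comb U Finset.univ ρ hρ c) =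
        meanNorm U t (fun g => ∑ k, (c k : ℂ) * (ρ k).character g) := by
    intro t c
    have e1 : ∀ q : Gal(AlgebraicClosure F/F) ⧸ U,
        W353.L1.comb U Finset.univ ρ hρ c q⁻¹ = ∑ k, (c k : ℂ) * (ρ k).character q.out := by
      intro q
      unfold W353.L1.comb
      refine Finset.sum_congr rfl fun k _ => ?_
      rw [inv_inv]
      congr 1
      conv_lhs => rw [← QuotientGroup.out_eq' q]
      rfl
    have e2 : ∑ᶠ q, |(W353.L1.comb U Finset.univ ρ hρ c q).re| =
        ∑ᶠ q : Gal(AlgebraicClosure F/F) ⧸ U, |(∑ k, (c k : ℂ) * (ρ k).character q.out).re| := by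
      rw [finsum_eq_sum_of_fintype, finsum_eq_sum_of_fintype, ← Equiv.sum_comp (Equiv.inv _)]
      exact Finset.sum_congr rfl fun q _ => by rw [Equiv.inv_apply, e1]
    have e3 : ∑ᶠ q, ‖W353.L1.comb U Finset.univ ρ hρ c q‖ =
        ∑ᶠ q : Gal(AlgebraicClosure F/F) ⧸ U, ‖∑ k, (c k : ℂ) * (ρ k).character q.out‖ := by
      rw [finsum_eq_sum_of_fintype, finsum_eq_sum_of_fintype, ← Equiv.sum_comp (Equiv.inv _)]
      exact Finset.sum_congr rfl fun q _ => by rw [Equiv.inv_apply, e1]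
    unfold W353.L1.nrm meanNorm W353.L1.avR
    rw [e2, e3]
    split_ifs with h
    · exact inv_mul_eq_div _ _
    · rw [inv_mul_eq_div, mul_div_assoc]
  choose σ hσ using W540.BE.exists_isFrob (F := F)
  have hne0 : ∀ k, ∀ᶠ ε : ℝ in 𝓝[>] 0, eulerProduct (B k) (3 / 2 + τ k * I + ε) ≠ 0 := by
    intro k
    have h4 := (W353.L1.size_corr (1 / 2) α h1 h2 U (ρ k) (hρ k) (τ k) (B k) (h3 k) (hB0' k)
      (eulerProduct (B k)) (hL k) σ hσ).1
    simp only [hs] at h4
    exact h4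
  refine ⟨hne0, ?_, ?_⟩
  · intro t c hc η hη
    have h4 := W353.L1.fin1 (1 / 2) α h1 h2 U hU ρ hρ τ B h3 hB0' (fun k => eulerProduct (B k))
      hL t c hc hη
    rw [hnrm] at h4
    simp only [hx] at h4
    exact h4
  · intro Λ hΛ
    have hord : ∀ k, ∃ m : ℤ, meromorphicOrderAt (Λ k) (3 / 2 + τ k * I) = m ∧
        Tendsto (size (B k) (τ k)) (𝓝[>] 0) (𝓝 (-(m : ℝ))) := by
      intro k
      have hev : ∀ᶠ ε : ℝ in 𝓝[>] 0, Λ k (3 / 2 + τ k * I + ε) =
          eulerProduct (B k) (3 / 2 + τ k * I + ε) := by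
        have h4 := (Pool.Agent.H341R2.path_tendsto' (3 / 2 + τ k * I : ℂ)).eventually (hΛ k).2
        filter_upwards [h4, self_mem_nhdsWithin] with ε h5 h6
        have hε : (0 : ℝ) < ε := h6
        refine h5 ?_
        have e : (3 / 2 + (τ k : ℂ) * I + (ε : ℂ)).re = 3 / 2 + ε := by simp
        rw [e]
        linarith
      have hne : ∀ᶠ ε : ℝ in 𝓝[>] 0, Λ k (3 / 2 + τ k * I + ε) ≠ 0 := by
        filter_upwards [hev, hne0 k] with ε h5 h6
        rw [h5]
        exact h6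
      obtain ⟨m, hm1, hm2⟩ := W540.BE.order_of_size (hΛ k).1 hne
      refine ⟨m, hm1, hm2.congr' ?_⟩
      filter_upwards [hev] with ε h5
      rw [h5]
      rfl
    choose m hm1 hm2 using hord
    have hm : ∀ k, Tendsto (W353.L1.xs (1 / 2) τ (fun k => eulerProduct (B k)) k) (𝓝[>] 0)
        (𝓝 (-(m k : ℝ))) := by
      intro k
      refine (hm2 k).congr fun ε => ?_
      rw [hx]
    refine ⟨m, hm1, ?_, ?_, ?_⟩
    · intro t c hc
      have h4 := W353.L1.fin2 (1 / 2) α h1 h2 U hU ρ hρ τ B h3 hB0' (fun k => eulerProduct (B k))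
        hL m hm t c hc
      rw [hnrm] at h4
      exact h4
    · intro K hK hne
      exact W353.L1.fin_one (1 / 2) α h1 h2 U hU ρ hρ τ B h3 hB0'
        (fun k => eulerProduct (B k)) hL m hm K (fun k hk => (hK k hk).1)
        (fun k hk => (hK k hk).2) hne
    · intro t K hK hne hsum
      have hbd : ∀ g, ‖∑ k ∈ K, (m k : ℂ) * (ρ k).character g‖ ≤
          if t = 0 then 2 else 4 / Real.pi := by
        intro g
        have h4 := W353.L1.fin_complete (1 / 2) α h1 h2 U hU ρ hρ τ B h3 hB0'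
          (fun k => eulerProduct (B k)) hL m hm t K (fun k hk => (hK k hk).2)
          (fun k hk => (hK k hk).1) hne hsum g
        refine h4.trans (le_of_eq ?_)
        split_ifs
        · norm_num
        · push_cast
          ring
      refine ⟨hbd, fun ht k hk hnk => ?_⟩
      by_contra hmk
      have hz : ∀ l ∈ K, l ≠ k → m l = 0 := by
        intro l hl hlk
        have h5 := W353.L1.fin_same (1 / 2) α h1 h2 U hU ρ hρ τ B h3 hB0'
          (fun k => eulerProduct (B k)) hL m hm (Ne.symm hlk) (hK k hk).1 (hK l hl).1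
          (hne k hk l hl (Ne.symm hlk)) (by rw [(hK k hk).2]; exact ht)
          (by rw [(hK k hk).2, (hK l hl).2])
        exact h5.resolve_left hmk
      have h6 := hbd 1
      rw [if_neg ht, Finset.sum_eq_single_of_mem k hk fun l hl hlk => by
        rw [hz l hl hlk]; simp, Representation.char_one, Module.finrank_fin_fun, norm_mul,
        Complex.norm_intCast, Complex.norm_natCast] at h6
      have h7 : (1 : ℝ) ≤ |((m k : ℤ) : ℝ)| := by exact_mod_cast Int.one_le_abs hmk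
      have h8 : (2 : ℝ) ≤ (n k : ℝ) := by exact_mod_cast hnk
      have hpi := Real.pi_gt_three
      have h9 : 4 / Real.pi < 2 := by
        rw [div_lt_iff₀ (by linarith)]
        linarith
      nlinarith

end Pool.Agent.Results.MP_bf61d2_nt.NonabelianTwists
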