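import Pool.Agent.W76.BK.MotV
import Pool.Agent.W263.EP.Conc

/-!
# The order of the L-function of an elliptic curve at every point as a limit of trace means

`K` is a number field.  A system of real numbers `t v j` stands for the traces of the `j`-th power of
the geometric Frobenius at the finite place `v` on `H = H^w(X)`, `X` smooth projective over `K`; for an
elliptic curve `E : y² = x³ + ax + b` one has `w = 1`, `t v 1 = a_v` and `t v j = q_v^j + 1 - #E(k_{v,j})`.
`S` is a finite set of places which contains the places of bad reduction, and the Euler factors at the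
places of `S` are any inverse polynomials `B_v(Nv^{-s})⁻¹` without poles in `Re s > w/2`.  All that is
used about the traces is the bound `|t v j| ≤ D Nv^{wj/2}`, which Part C proves for all cohomology groups
of all products of curves `y² = f_j(x)`, `deg f_j` odd, over any number field; one curve with `deg f = 3`
and `w = 1` are the elliptic curves of the problem (Hasse's bound).

`F` is a meromorphic continuation of `L(H, s)` to the half plane `Re s > w/2`; for elliptic curves over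
totally real and CM fields it is known to exist (potential modularity).  Nothing else is
used: no functional equation, no information about zeros and poles, no growth.

For a point `s₀` with `Re s₀ > w/2`, an angle `γ` and `T > 0` put

`M_γ(T, s₀) = (1/T) ∑_{v ∉ S, j ≥ 1} t_v(j) log Nv · Nv^{-j s₀} · e^{iγ j log Nv / T} /
Γ(1 + j log Nv / T)`,

an absolutely convergent series, and `V(a) = ∫_0^∞ e^{at} / Γ(1+t) dt` (Volterra's function of `e^a`).

* **Order at every point.**  For every `γ > π/2` and every `s₀` with `Re s₀ > w/2`: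
  `M_γ(T, s₀) = - ord_{s₀} F · V(iγ) + O(1/T)`; if `γ ≤ π`, then `Im V(iγ) > 0`.
* **Explicit formula** with the zeros and poles on one horizontal ray only, for every angle `γ`:
  `M_γ(T, s₀) = - ∑_{x ≥ 0} ord_{s₀ + x} F · V(xT + iγ) + O(1/T)`.
* **Pole detector.**  `F` is holomorphic at `s₀` if and only if `Im M_γ(T, s₀) < ½ Im V(iγ)` for
  arbitrarily large `T`; at a pole, `Im M_γ(T, s₀) > ½ Im V(iγ)` for all large `T`.
* Hence, if `L(E/K, s)` has a meromorphic continuation with the functional equation `s ↔ 2 - s` of the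
  problem, then it is entire if and only if this one-sided inequality holds, for arbitrarily large `T`,
  at each point `s₀` of the half plane `Re s > 1/2`.

The case `s₀ = (w+1)/2` (with a continuation along the real ray only) is our `MP_b8021b_nt/TraceLaw`;
here `s₀` is any point of the half plane.  Idea: `e^{iγv}/Γ(1 + v) = (2πi)⁻¹ ∫ exp(e^z) e^{-(z - iγ)v} dz`
along the boundary of a half strip `Re z ≥ a`, `|Im z| ≤ π`; so `T M_γ(T, s₀)` is the integral of
`- (L'/L)(s₀ + (z - iγ)/T)`, and in the scale `(z - iγ)/T` this strip shrinks to the ray.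
-/

set_option autoImplicit false

namespace Pool.Agent.Results.MP_bf61d2_nt.PoleDetector

open NumberField IsDedekindDomain Filter Topology Polynomial

variable {K : Type} [Field K] [NumberField K]

/-- `|t_v(j)| ≤ D Nv^{wj/2}` for all `v ∉ S` and all `j ≥ 1`. -/
def WeightBound (t : HeightOneSpectrum (𝓞 K) → ℕ → ℝ) (w : ℕ)
    (S : Finset (HeightOneSpectrum (𝓞 K))) (D : ℝ) : Prop :=
  0 ≤ D ∧ ∀ v, v ∉ S → ∀ j : ℕ, 1 ≤ j →
    |t v j| ≤ D * (Ideal.absNorm v.asIdeal : ℝ) ^ ((w : ℝ) * j / 2)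

open Classical in
/-- The Euler product `L(H, s)`.  At the places `v ∉ S` the factor is
`det(1 - Frob_v Nv^{-s} | H)⁻¹ = exp(∑_{j ≥ 1} t_v(j) Nv^{-js} / j)`; at the places of the finite set
`S` it is `B_v(Nv^{-s})⁻¹`. -/
noncomputable def LFun (t : HeightOneSpectrum (𝓞 K) → ℕ → ℝ) (S : Finset (HeightOneSpectrum (𝓞 K)))
    (B : HeightOneSpectrum (𝓞 K) → ℂ[X]) (s : ℂ) : ℂ :=
  ∏' v : HeightOneSpectrum (𝓞 K),
    if v ∈ S then ((B v).eval (((Ideal.absNorm v.asIdeal : ℕ) : ℂ) ^ (-s)))⁻¹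
    else Complex.exp (∑' m : ℕ, (t v (m + 1) : ℂ) *
      ((Ideal.absNorm v.asIdeal : ℕ) : ℂ) ^ (-((m + 1 : ℂ) * s)) / (m + 1))

open Classical in
/-- The term `t_v(j) log Nv · Nv^{-j s₀} · e^{iγ j log Nv / T} / Γ(1 + j log Nv / T)`,
`x = (v, j - 1)`, `v ∉ S`. -/
noncomputable def traceTerm (t : HeightOneSpectrum (𝓞 K) → ℕ → ℝ)
    (S : Finset (HeightOneSpectrum (𝓞 K))) (s₀ : ℂ) (γ T : ℝ) (x : HeightOneSpectrum (𝓞 K) × ℕ) : ℂ :=
  if x.1 ∈ S then 0 else
    t x.1 (x.2 + 1) * Real.log (Ideal.absNorm x.1.asIdeal : ℝ) *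
      ((Ideal.absNorm x.1.asIdeal : ℕ) : ℂ) ^ (-((x.2 + 1 : ℂ) * s₀)) *
      Complex.exp (((γ * ((x.2 + 1) * Real.log (Ideal.absNorm x.1.asIdeal : ℝ) / T) : ℝ) : ℂ) *
        Complex.I) /
      ((Real.Gamma (1 + (x.2 + 1) * Real.log (Ideal.absNorm x.1.asIdeal : ℝ) / T) : ℝ) : ℂ)

/-- The mean `M_γ(T, s₀)`: the sum of all these terms, divided by `T`. -/
noncomputable def traceMean (t : HeightOneSpectrum (𝓞 K) → ℕ → ℝ)
    (S : Finset (HeightOneSpectrum (𝓞 K))) (s₀ : ℂ) (γ T : ℝ) : ℂ :=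
  (∑' x, traceTerm t S s₀ γ T x) / T

/-- Volterra's function, `V(a) = ∫_0^∞ e^{at} / Γ(1+t) dt`. -/
noncomputable def volterra (a : ℂ) : ℂ :=
  ∫ t in Set.Ioi (0 : ℝ), Complex.exp (a * t) * (((Real.Gamma (1 + t))⁻¹ : ℝ) : ℂ)

/-! ### Products of curves -/

/-- Number of affine points of `y² = f(x)` with coordinates in the extension of degree `m` of the
finite field `k`, that is, the field of the elements of the algebraic closure of `k` that are fixed
by the `m`-th power of the Frobenius of `k`. -/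
noncomputable def affineCount (k : Type) [Field k] (f : k[X]) (m : ℕ) : ℕ :=
  Nat.card {P : AlgebraicClosure k × AlgebraicClosure k //
    P.1 ^ (Nat.card k ^ m) = P.1 ∧ P.2 ^ (Nat.card k ^ m) = P.2 ∧ P.2 ^ 2 = aeval P.1 f}

/-- Trace of the `m`-th power of the Frobenius at `v` on `H¹` of the smooth projective curve
`y² = f(x)`, `deg f` odd: it is `q^m + 1` minus the number of points over the field with `q^m`
elements, and there is one point at infinity. -/
noncomputable def traceH1 (v : HeightOneSpectrum (𝓞 K)) (f : (𝓞 K)[X]) (m : ℕ) : ℤ :=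
  haveI : v.asIdeal.IsMaximal := v.isMaximal
  letI : Field (𝓞 K ⧸ v.asIdeal) := Ideal.Quotient.field v.asIdeal
  (Ideal.absNorm v.asIdeal : ℤ) ^ m + 1 -
    (affineCount (𝓞 K ⧸ v.asIdeal) (f.map (Ideal.Quotient.mk v.asIdeal)) m + 1)

/-- Trace of the `m`-th power of the Frobenius at `v` on `H^k(X)`, `X` the product of the curves
`y² = f_j(x)`: by the Künneth formula it is the coefficient of `T^k` in
`∏_j (1 + Tr(Frob^m | H¹(C_j)) T + q^m T²)`. -/
noncomputable def traceH {n : ℕ} (f : Fin n → (𝓞 K)[X]) (k : ℕ) (v : HeightOneSpectrum (𝓞 K))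
    (m : ℕ) : ℝ :=
  (((∏ j, (1 + C (traceH1 v (f j) m) * X + C ((Ideal.absNorm v.asIdeal : ℤ) ^ m) * X ^ 2)).coeff k
    : ℤ) : ℝ)

/-- The dimension of `H^k(X)`: the coefficient of `T^k` in `∏_j (1 + 2g_j T + T²)`,
`2g_j = deg f_j - 1`. -/
noncomputable def bettiNumber {n : ℕ} (f : Fin n → (𝓞 K)[X]) (k : ℕ) : ℕ :=
  (∏ j, (1 + C ((f j).natDegree - 1) * X + X ^ 2 : ℕ[X])).coeff k

theorem affineCount_eq (k : Type) [Field k] (f : k[X]) (m : ℕ) :
    affineCount k f m = Pool.Agent.H126T.affPts k f 1 m := by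
  unfold affineCount Pool.Agent.H126T.affPts
  simp only [map_one, one_mul]

/-- **The order of the L-function at every point as a limit of trace means.**

Let `t` be a system of Frobenius traces of weight `w` over a number field `K`, as above, let `B_v`,
`v ∈ S`, be polynomials with `B_v(Nv^{-s}) ≠ 0` for `Re s > w/2`, and let `F` be meromorphic at the
points of the half plane `Re s > w/2`, with `F(s) = L(H, s)` for `Re s > w/2 + 1`.

Part A.  Let `Re s₀ > w/2`.

1. The series for `M_γ(T, s₀)` converges absolutely, for all `γ` and all `T > 0`.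
2. `F` has an order `n ∈ ℤ` at `s₀` (negative at a pole), and the set `Z` of the `x > 0` such that
`s₀ + x` is a zero or a pole of `F` is finite; let `k_x` be the order of `F` at `s₀ + x`.
3. For every `γ`: `M_γ(T, s₀) = - n V(iγ) - ∑_{x ∈ Z} k_x V(xT + iγ) + O(1/T)`.
4. For every `γ > π/2`: `M_γ(T, s₀) = - n V(iγ) + O(1/T)`.
5. For every `π/2 < γ ≤ π`: `Im V(iγ) > 0`; `M_γ(T, s₀) → - n V(iγ)`; `F` has neither a zero nor a pole
at `s₀` iff `M_γ(T, s₀) → 0`; and `F` has no pole at `s₀` iff `Im M_γ(T, s₀) < ½ Im V(iγ)` for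
arbitrarily large `T`.

Part B.  For every `π/2 < γ ≤ π`: `F` has no pole in the half plane `Re s > w/2` if and only if for
every `s₀` with `Re s₀ > w/2` one has `Im M_γ(T, s₀) < ½ Im V(iγ)` for arbitrarily large `T`.

Part C.  The bound assumed above holds for `H^k(X)`, all `k`, with `w = k` and `D = dim H^k(X)`, if `X`
is a product of curves `y² = f_j(x)` over `K`, `deg f_j` odd, and `S` contains the places which divide
`2` or the leading coefficient of an `f_j`. -/
theorem result :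
    (∀ (K : Type) [Field K] [NumberField K] (t : HeightOneSpectrum (𝓞 K) → ℕ → ℝ) (w : ℕ)
      (S : Finset (HeightOneSpectrum (𝓞 K))) (D : ℝ) (_ : WeightBound t w S D)
      (B : HeightOneSpectrum (𝓞 K) → ℂ[X])
      (_ : ∀ v ∈ S, ∀ s : ℂ, (w : ℝ) / 2 < s.re →
        (B v).eval (((Ideal.absNorm v.asIdeal : ℕ) : ℂ) ^ (-s)) ≠ 0)
      (F : ℂ → ℂ) (_ : ∀ s : ℂ, (w : ℝ) / 2 < s.re → MeromorphicAt F s)
      (_ : ∀ s : ℂ, (w : ℝ) / 2 + 1 < s.re → F s = LFun t S B s),
      (∀ s₀ : ℂ, (w : ℝ) / 2 < s₀.re →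
        (∀ γ T : ℝ, 0 < T → Summable fun x => ‖traceTerm t S s₀ γ T x‖) ∧
        ∃ (n : ℤ) (Z : Finset ℝ) (k : ℝ → ℤ),
          meromorphicOrderAt F s₀ = n ∧
          (∀ x : ℝ, x ∈ Z ↔ 0 < x ∧ meromorphicOrderAt F (s₀ + x) ≠ 0) ∧
          (∀ x ∈ Z, meromorphicOrderAt F (s₀ + x) = k x) ∧
          (∀ γ : ℝ, ∃ C T₀ : ℝ, ∀ T ≥ T₀, ‖traceMean t S s₀ γ T +
            (n * volterra (γ * Complex.I) + ∑ x ∈ Z, (k x : ℂ) *
              volterra ((x * T : ℝ) + γ * Complex.I))‖ ≤ C / T) ∧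
          (∀ γ : ℝ, Real.pi / 2 < γ → ∃ C T₀ : ℝ, ∀ T ≥ T₀,
            ‖traceMean t S s₀ γ T + n * volterra (γ * Complex.I)‖ ≤ C / T) ∧
          ∀ γ : ℝ, Real.pi / 2 < γ → γ ≤ Real.pi →
            0 < (volterra (γ * Complex.I)).im ∧
            Tendsto (fun T : ℝ => traceMean t S s₀ γ T) atTop
              (𝓝 (-(n * volterra (γ * Complex.I)))) ∧
            (n = 0 ↔ Tendsto (fun T : ℝ => traceMean t S s₀ γ T) atTop (𝓝 0)) ∧
            (0 ≤ n ↔ ∃ᶠ T : ℝ in atTop,
              (traceMean t S s₀ γ T).im < (volterra (γ * Complex.I)).im / 2)) ∧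
      (∀ γ : ℝ, Real.pi / 2 < γ → γ ≤ Real.pi →
        ((∀ s : ℂ, (w : ℝ) / 2 < s.re → 0 ≤ meromorphicOrderAt F s) ↔
          ∀ s₀ : ℂ, (w : ℝ) / 2 < s₀.re → ∃ᶠ T : ℝ in atTop,
            (traceMean t S s₀ γ T).im < (volterra (γ * Complex.I)).im / 2))) ∧
    (∀ (K : Type) [Field K] [NumberField K] (n : ℕ) (f : Fin n → (𝓞 K)[X])
      (_ : ∀ j, Odd (f j).natDegree) (S : Finset (HeightOneSpectrum (𝓞 K)))
      (_ : ∀ v, v ∉ S → ∀ j, 2 * (f j).leadingCoeff ∉ v.asIdeal) (k : ℕ),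
      WeightBound (traceH f k) k S (bettiNumber f k)) := by
  refine ⟨?_, ?_⟩
  · intro K _ _ t w S D ht B hB F hF1 hF2
    have hM : ∀ s₀ γ T, traceMean t S s₀ γ T = Pool.Agent.W76.BK.MotV.gMean
        (Pool.Agent.H341R2.sysK K) S t s₀ γ T := fun s₀ γ T => rfl
    have hL : ∀ s : ℂ, (w : ℝ) / 2 + 1 < s.re → F s = Pool.Agent.W263.EP.LFB
        (Pool.Agent.H341R2.sysK K) S B t s := fun s hs => hF2 s hs
    have main : ∀ s₀ : ℂ, (w : ℝ) / 2 < s₀.re → _ := fun s₀ hs₀ =>
      Pool.Agent.W76.BK.MotV.gen (S := Pool.Agent.H341R2.sysK K) (Bs := S) (B := B)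
        (tr := t) (ω := (w : ℝ)) (F := F) (s₀ := s₀) ht.1 ht.2 hs₀ hB
        (fun x hx => hF1 _ (by rw [Complex.add_re, Complex.ofReal_re]; linarith)) hL
    refine ⟨fun s₀ hs₀ => ⟨fun γ T hT => Pool.Agent.W76.BK.MotV.gTerm_summable
      (S := Pool.Agent.H341R2.sysK K) (Bs := S) (tr := t) (ω := (w : ℝ)) ht.1 ht.2 hs₀ γ hT, ?_⟩,
      fun γ hγ hγ2 => ?_⟩
    · obtain ⟨n, Z, k, h1, h2, h3, h4, h5⟩ := main s₀ hs₀
      refine ⟨n, Z, k, h1, h2, h3, h4, h5, fun γ hγ hγ2 => ?_⟩
      have hγ0 : 0 < γ := by linarith [Real.pi_pos]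
      obtain ⟨h6, h7, h8⟩ := Pool.Agent.W76.BK.Art.holo_iff hγ0 hγ2 (h5 γ hγ)
      exact ⟨Pool.Agent.W76.BK.MotT.NU_im_pos hγ0 hγ2, h8, h7, h6⟩
    · have hγ0 : 0 < γ := by linarith [Real.pi_pos]
      refine forall_congr' fun s₀ => ?_
      refine forall_congr' fun hs₀ => ?_
      obtain ⟨n, Z, k, h1, h2, h3, h4, h5⟩ := main s₀ hs₀
      obtain ⟨h6, -, -⟩ := Pool.Agent.W76.BK.Art.holo_iff hγ0 hγ2 (h5 γ hγ)
      have h7 : (∃ᶠ T : ℝ in atTop, (traceMean t S s₀ γ T).im <
          (volterra (γ * Complex.I)).im / 2) ↔ 0 ≤ n := h6.symm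
      rw [h7, h1]
      exact_mod_cast Iff.rfl
  · intro K _ _ n f hodd S hS k
    refine ⟨by positivity, fun v hv m hm => ?_⟩
    have h1 := Pool.Agent.W263.EP.trHk_bound f hodd (hS v hv) k m hm
    have h2 : ∀ j, traceH1 v (f j) m = Pool.Agent.H126T.traceH1 v (f j) 1 m := by
      intro j
      unfold traceH1 Pool.Agent.H126T.traceH1
      rw [map_one, affineCount_eq]
      rfl
    have h3 : traceH f k v m = (Pool.Agent.W263.EP.trHk v f k m : ℝ) := by
      unfold traceH Pool.Agent.W263.EP.trHk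
      simp only [h2]
      rfl
    rw [h3]
    exact h1

end Pool.Agent.Results.MP_bf61d2_nt.PoleDetector
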