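import Pool.Agent.W353.SE.Fin

/-!
# Elliptic curves with the Sato–Tate law: Artin twists on the edge

`F` is a number field and `E` an elliptic curve over `F`, given by an integral Weierstrass equation `W`
with discriminant `≠ 0`, whose normalised traces `a_v / √q_v` have the Sato–Tate distribution over `F`
(this is known for curves without complex multiplication over totally real fields, for example over
`ℚ`).  Then for every irreducible Artin representation `ρ` of `F` and every point `3/2 + iτ` the Euler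
product `L(E ⊗ ρ, s)` is holomorphic and nonzero at `3/2 + iτ` as soon as it has some meromorphic
continuation to a neighbourhood of this point.  In particular this is so for all the factors of
`L(E/F', s)`, `F'` any number field containing `F`.
-/

set_option autoImplicit false

namespace Pool.Agent.Results.MP_bf61d2_nt.SatoTateTwists

open Complex Filter Topology NumberField IsDedekindDomain Polynomial
open Pool.Agent.W353.SE
open Pool.Agent.W353.AT (IsArtin)

/-- **Artin twists of an elliptic curve with the Sato–Tate law.**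

`ρ_k` (`k` in a finite set) are Artin representations of `F`, `L_k` is the Euler product of `E ⊗ ρ_k`
with arbitrary polynomials, not zero at `q_v^{-(3/2 + iτ)}`, as factors at finitely many primes, and
`x_k(ε) = log |L_k(3/2 + iτ + ε)| / log(1/ε)`; for real numbers `c_k` put
`g(c) = ∑ c_k c_l dim Hom(ρ_k, ρ_l)`.

1. `L_k(3/2 + iτ + ε) ≠ 0` for small `ε > 0`.
2. (Nothing is assumed about continuation.)  If `g(c) > 0` there is `θ < 1` such that
`|∑ c_k x_k(ε)| ≤ θ √g(c)` for all small `ε > 0`.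
3. If the `L_k` have meromorphic continuations to neighbourhoods of `3/2 + iτ`, then these have finite
orders `m_k` there, `|∑ c_k m_k| < √g(c)` if `g(c) > 0`, and `m_k = 0` for all irreducible `ρ_k`. -/
theorem result (F : Type) [Field F] [NumberField F] (W : WeierstrassCurve (𝓞 F)) (hΔ : W.Δ ≠ 0)
    (hST : SatoTate W) (κ : Type) [Fintype κ] (n : κ → ℕ)
    (ρ : ∀ k, Representation ℂ Gal(AlgebraicClosure F/F) (Fin (n k) → ℂ))
    (hρ : ∀ k, IsArtin (ρ k)) (τ : ℝ)
    (B : κ → HeightOneSpectrum (𝓞 F) → ℂ[X]) (hB : ∀ k, IsEulerFactor W (ρ k) (B k))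
    (hB0 : ∀ k, ∀ v,
      (B k v).eval ((Ideal.absNorm v.asIdeal : ℂ) ^ (-(3 / 2 + τ * I : ℂ))) ≠ 0) :
    (∀ k, ∀ᶠ ε : ℝ in 𝓝[>] 0, eulerProduct (B k) (3 / 2 + τ * I + ε) ≠ 0) ∧
    (∀ c : κ → ℝ, 0 < gram ρ c → ∃ θ : ℝ, θ < 1 ∧ ∀ᶠ ε : ℝ in 𝓝[>] 0,
      |∑ k, c k * size (B k) τ ε| ≤ θ * Real.sqrt (gram ρ c)) ∧
    ∀ Λ : κ → ℂ → ℂ, (∀ k, IsContinuation (B k) τ (Λ k)) →
      ∃ m : κ → ℤ, (∀ k, meromorphicOrderAt (Λ k) (3 / 2 + τ * I) = m k) ∧
        (∀ c : κ → ℝ, 0 < gram ρ c → |∑ k, c k * m k| < Real.sqrt (gram ρ c)) ∧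
        ∀ k, (ρ k).IsIrreducible → m k = 0 :=
  main_fin hΔ hST ρ hρ τ B hB hB0

end Pool.Agent.Results.MP_bf61d2_nt.SatoTateTwists
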